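import Mathlib
import Pool.Agent.Q12.UDF.Main

/-!
# MP_8ccf7f_al: a deformation which does not come from a universal deformation formula

For every field `k` there are a finitely generated unital associative `k`-algebra `A` and a
deformation of `A` over `R = k[ε]`, `ε² = 0`, which is not equivalent to any deformation given by
a universal deformation formula based on a bialgebra acting on `A`. Since `R` is finite
dimensional over `k`, the completed tensor products of the general definitions are ordinary ones.
-/

open Q12.UDF

universe u w

namespace Pool.Agent.Results.MP_8ccf7f_al.NotUDF

theorem result (k : Type u) [Field k] :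
    ∃ (A : Type u) (_ : Ring A) (_ : Algebra k A) (m : Mult k (DualNumber k) A),
      Algebra.FiniteType k A ∧
      IsDeformation (IsLocalRing.maximalIdeal (DualNumber k)) m ∧
      ¬ ComesFromUDF.{u, u, w} k (DualNumber k) (IsLocalRing.maximalIdeal (DualNumber k)) A m := by
  refine ⟨A k, inferInstance, inferInstance, m k (DualNumber k) DualNumber.eps, ?_⟩
  rw [DualNumber.maximalIdeal_eq_span_singleton_eps]
  exact main k

end Pool.Agent.Results.MP_8ccf7f_al.NotUDF
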